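import Mathlib.Data.ZMod.Basic
import Mathlib.Data.Set.Card
import Mathlib.GroupTheory.OrderOfElement
import Mathlib.Data.Nat.PrimeFin

/-!
# The number of classes of linked residues
-/

set_option autoImplicit false

namespace Pool.Agent.H547_n

/-- The number of the classes of nonzero residues, for a relation which links residues the orders of
which have the same prime divisors. -/
lemma ncard_classes_lt {m : ℕ} [NeZero m] (R : ZMod m → ZMod m → Prop)
    (hR : ∀ a b : ZMod m, a ≠ 0 → b ≠ 0 →
      (addOrderOf a).primeFactors = (addOrderOf b).primeFactors → R a b) :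
    Set.ncard {C : Quot R | C ≠ Quot.mk _ 0} ≤ 2 ^ m.primeFactors.card - 1 := by
  classical
  have hne : ∀ C : Quot R, C ≠ Quot.mk _ 0 → Quot.out C ≠ 0 := by
    intro C hC h
    apply hC
    rw [← Quot.out_eq C, h]
  let T : Finset (Finset ℕ) := m.primeFactors.powerset.erase ∅
  have hT : T.card = 2 ^ m.primeFactors.card - 1 := by
    rw [Finset.card_erase_of_mem (Finset.empty_mem_powerset _), Finset.card_powerset]
  rw [← hT, ← Set.ncard_coe_finset]
  refine Set.ncard_le_ncard_of_injOn (fun C => (addOrderOf (Quot.out C)).primeFactors) ?_ ?_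
    (Finset.finite_toSet _)
  · intro C hC
    have h0 := hne C hC
    have h1 : addOrderOf (Quot.out C) ∣ m := by
      rw [addOrderOf_dvd_iff_nsmul_eq_zero, nsmul_eq_mul]
      simp
    rw [Finset.mem_coe, Finset.mem_erase, Finset.mem_powerset]
    refine ⟨fun h => ?_, Nat.primeFactors_mono h1 (NeZero.ne m)⟩
    rw [Nat.primeFactors_eq_empty] at h
    rcases h with h | h
    · have h2 := Nat.eq_zero_of_zero_dvd (h ▸ h1)
      exact NeZero.ne m h2
    · exact h0 (AddMonoid.addOrderOf_eq_one_iff.mp h)
  · intro C hC D hD h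
    rw [← Quot.out_eq C, ← Quot.out_eq D]
    exact Quot.sound (hR _ _ (hne C hC) (hne D hD) h)

end Pool.Agent.H547_n
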